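import Pool.Agent.H820.ML.Defs
import Pool.Agent.H820.RT.Defs

/-!
Diffeomorphisms of `ℂℙ²` for which the pull-back of the Fubini-Study form is positive, on each
round sphere about a point, on one of the contact structures which are invariant under `SU(2)`.
-/

set_option autoImplicit false

open Set Topology
open scoped ContDiff

noncomputable section

namespace Pool.Agent.H820.RL

open Pool.Agent.H820.PC Pool.Agent.H820.ML Pool.Agent.H820.RT

/-- Up to the factor `|u| |x|²`, this is the value of the pull-back of the Fubini-Study form by the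
map induced by `F` on an oriented orthonormal basis of the plane which is orthogonal, in the tangent
space `⟨i x, j x, k x⟩` at `x` of the sphere of radius `|x|`, to `u₀ i x + u₁ j x + u₂ k x`. -/
def area (F : C3 → C3) (u : Fin 3 → ℝ) (x : Fin 2 → ℂ) : ℝ :=
  u 0 * pfs F (pt x) (vec (qJ x)) (vec (qK x)) + u 1 * pfs F (pt x) (vec (qK x)) (vec (qI x)) +
    u 2 * pfs F (pt x) (vec (qI x)) (vec (qJ x))

/-- The pull-back of the Fubini-Study form by the map induced by `F` is positive on the line
`{z₀ = 0}`, and for each sphere of radius `r > 0` in the affine chart `ℂ²` there is a vector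
`u = (u₀, u₁, u₂)` such that the pull-back is positive on the planes which are orthogonal to
`u₀ i x + u₁ j x + u₂ k x` in the tangent spaces of the sphere (a contact structure which is
invariant under `SU(2)`). -/
structure RotatingMap (F : C3 → C3) : Prop where
  line : ∀ z v : C3, z ≠ 0 → z 0 = 0 → v 0 = 0 → (∀ c : ℂ, v ≠ c • z) → 0 < pfs F z v (J v)
  spheres : ∀ r : ℝ, 0 < r → ∃ u : Fin 3 → ℝ, ∀ x : Fin 2 → ℂ,
    ‖x 0‖ ^ 2 + ‖x 1‖ ^ 2 = r ^ 2 → 0 < area F u x

end Pool.Agent.H820.RL
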