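import Pool.Agent.H820.ML.Final
import Pool.Agent.H820.RT.Final
import Pool.Agent.H820.RL.Defs

/-!
Diffeomorphisms which are positive on rotating contact planes are isotopic to symplectomorphisms.
-/

set_option autoImplicit false

open Set Topology Filter
open scoped ContDiff

noncomputable section

namespace Pool.Agent.H820.RL

open Pool.Agent.H820.PC Pool.Agent.H820.ML Pool.Agent.H820.RT

/-- the isotopy which is obtained from a path of forms -/
theorem isotopic_of_path {F : C3 → C3} (hF : IsDiffeo F) {a : Cov2} (hpath : IsPath a)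
    (P : ℝ → TwoForm)
    (hom : ∀ (s : ℝ) (z v w : C3), z ≠ 0 → Om a (s, z) v w = (P s).1 z ![v, w])
    (hp : ∀ s z e n, IsFrame z e n → 0 < pfA ((P s).1 z) e n)
    (hP0 : ∀ z v w : C3, z ≠ 0 → (P 0).1 z ![v, w] = pfs F z v w)
    (hP1 : ∀ z v w : C3, z ≠ 0 → (P 1).1 z ![v, w] = fs z v w) :
    ∃ G, IsSymplectomorphism G ∧ Isotopic F G := by
  obtain ⟨Ψ, Θ, hΨs, hΨ, hΘ, hΘΨ, hΨΘ, hΨ0, hpull⟩ := exists_isotopy hpath
  obtain ⟨G, hG, hGF, hFG⟩ := hF.inverse
  have hΨne : ∀ s z, z ≠ 0 → Ψ s z ≠ 0 := by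
    intro s z hz h2
    have := hΘΨ s z
    rw [h2, (hΘ s).zero] at this
    exact hz this.symm
  have hGne : ∀ z, z ≠ 0 → G z ≠ 0 := by
    intro z hz h2
    have := hFG z
    rw [h2, hF.lift.zero] at this
    exact hz this.symm
  -- the pull-backs by the maps of the isotopy
  have hpfs : ∀ (s : ℝ) (z v w : C3), z ≠ 0 →
      pfs (fun z => F (Ψ s z)) z v w = (P s).1 z ![v, w] := by
    intro s z v w hz
    have e1 : HasFDerivAt (fun x => F (Ψ s x))
        ((fderiv ℝ F (Ψ s z)).comp (fderiv ℝ (Ψ s) z)) z :=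
      (hF.lift.diff (hΨne s z hz)).hasFDerivAt.comp z ((hΨ s).diff hz).hasFDerivAt
    rw [← hom s z v w hz, ← hpull s z v w hz, hom 0 _ _ _ (hΨne s z hz),
      hP0 _ _ _ (hΨne s z hz)]
    unfold pfs
    rw [e1.fderiv]
    rfl
  have hdiff : ∀ s, IsDiffeo (fun z => F (Ψ s z)) := by
    intro s
    refine ⟨hF.lift.comp (hΨ s) (hΨne s), ⟨fun z => Θ s (G z), (hΘ s).comp hG hGne,
      fun z => by
        show Θ s (G (F (Ψ s z))) = z
        rw [hGF, hΘΨ], fun z => by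
        show F (Ψ s (Θ s (G z))) = z
        rw [hΨΘ, hFG]⟩, fun z v w hi => ?_⟩
    have h2 : wedge (pfs (fun z => F (Ψ s z)) z) (pfs (fun z => F (Ψ s z)) z) v w =
        wedge (ev (P s) z) (ev (P s) z) v w := by
      unfold wedge
      simp only [hpfs s z _ _ (ne_of_indep hi)]
      rfl
    rw [h2]
    exact pos_of_frames (hp s) z v w hi
  refine ⟨fun z => F (Ψ 1 z), ⟨hdiff 1, fun z v w hz => ?_⟩, fun s z => F (Ψ s z), ?_, hdiff,
    ?_, rfl⟩
  · rw [hpfs 1 z v w hz, hP1 z v w hz]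
  · exact hF.lift.smooth.comp hΨs fun p hp => hΨne p.1 p.2 hp
  · funext z
    show F (Ψ 0 z) = F z
    rw [hΨ0]

/-- the pull-back of the Fubini-Study form is a symplectic form -/
theorem symplectic_pform {F : C3 → C3} (hF : IsDiffeo F) :
    IsSymplectic (pform F hF.lift hF.ne) := by
  have hb₀ : IsCn l0 (pc F (cv lam0)) := isCn_pc hF.lift hF.ne isCn_lam0
  refine ⟨closed_iff.2 fun z hz => closed_dB hb₀.isConn.smooth hz, ?_, ?_⟩
  · refine ⟨cov (pc F (cv lam0)) - lam0, ⟨?_, ?_, ?_, ?_⟩, ?_⟩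
    · exact hb₀.isConn.smooth.sub isConn_lam0.smooth
    · intro c z v hc hz
      show cov (pc F (cv lam0)) (c • z) (fun i => c • v i) - lam0 (c • z) (fun i => c • v i) =
        cov (pc F (cv lam0)) z v - lam0 z v
      rw [hb₀.isConn.invariant c z v hc hz, isConn_lam0.invariant c z v hc hz]
    · intro z v i c hz hv
      have hi : i = 0 := Subsingleton.elim _ _
      rw [hi] at hv
      have e : v = ![c • z] := by
        funext j
        fin_cases j
        exact hv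
      show cov (pc F (cv lam0)) z v - lam0 z v = 0
      rw [e, lam0_vertical z c hz, cov_apply, hb₀.vertical z c hz, sub_self]
    · ext v
      show cov (pc F (cv lam0)) 0 v - lam0 0 v = 0
      have e1 : lam0 0 v = 0 := by
        rw [lam0_apply]
        have : tau 0 = 0 := map_zero _
        rw [this]
        simp
      rw [e1, cov_apply', sub_zero]
      show cv lam0 (F 0) (fderiv ℝ F 0 (v 0)) = 0
      rw [hF.lift.zero, cv_apply, lam0_apply]
      have : tau 0 = 0 := map_zero _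
      rw [this]
      simp
    · intro z v w hz
      show (pform F hF.lift hF.ne).1 z ![v, w] = _
      have hd0 : DifferentiableAt ℝ (cov (pc F (cv lam0))) z :=
        (hb₀.isConn.smooth.contDiffAt (mem_nhds_Dom hz)).differentiableAt (by simp)
      have hd1 : DifferentiableAt ℝ lam0 z :=
        (isConn_lam0.smooth.contDiffAt (mem_nhds_Dom hz)).differentiableAt (by simp)
      have e : extDeriv (cov (pc F (cv lam0)) - lam0) z = extDeriv (cov (pc F (cv lam0))) z -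
          extDeriv lam0 z := by
        rw [extDeriv, extDeriv, extDeriv, fderiv_sub hd0 hd1]
        exact map_sub (ContinuousAlternatingMap.alternatizeUncurryFinCLM ℝ C3 ℝ) _ _
      rw [pform_ext hF.lift hF.ne z v w hz, ← dlam0 hz]
      unfold d
      rw [e]
      show _ = extDeriv lam0 z ![v, w] + (extDeriv (cov (pc F (cv lam0))) z ![v, w] -
        extDeriv lam0 z ![v, w])
      ring
  · intro z v w hi
    have h1 := hF.oriented z v w hi
    have h2 : wedge (ev (pform F hF.lift hF.ne) z) (ev (pform F hF.lift hF.ne) z) v w =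
        wedge (pfs F z) (pfs F z) v w := by
      unfold wedge ev
      simp only [pform_at hF.lift hF.ne (ne_of_indep hi)]
    rw [h2]
    exact h1

theorem rotating_pform {F : C3 → C3} (hF : IsDiffeo F) (h : RotatingMap F) :
    Rotating (pform F hF.lift hF.ne) := by
  have hev : ∀ z v w : C3, z ≠ 0 → ev (pform F hF.lift hF.ne) z v w = pfs F z v w :=
    fun z v w hz => pform_at hF.lift hF.ne hz v w
  refine ⟨symplectic_pform hF, fun z v hz hz0 hv0 hv => ?_, fun r hr => ?_⟩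
  · rw [hev z _ _ hz]
    exact h.line z v hz hz0 hv0 hv
  · obtain ⟨u, hu⟩ := h.spheres r hr
    refine ⟨u, fun x hx => ?_⟩
    have hz : pt x ≠ 0 := by
      intro h0
      have : (pt x) 0 = 0 := by
        rw [h0]
        rfl
      exact one_ne_zero this
    unfold RT.area
    rw [hev _ _ _ hz, hev _ _ _ hz, hev _ _ _ hz]
    exact hu x hx

theorem isForm_cn {β : Form 1} (hβ : IsForm 1 β) : IsCn 0 (cv β) :=
  isCn_of hβ.isConn fun z c hz => hβ.horizontal z _ 0 c hz rfl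

/-- the path of connection forms -/
def path (b : C3 → C3 →L[ℝ] ℝ) (G : ℝ → Fin 3 → ℝ) : Cov2 := fun p =>
  w0 p.1 • b p.2 + (1 - w0 p.1) • (cv lam0 p.2 + cv (Lam (scl (1 - w2 p.1) G)) p.2)

theorem contDiffOn_path {b : C3 → C3 →L[ℝ] ℝ} (hb : ContDiffOn ℝ ∞ b Dom) {G : ℝ → Fin 3 → ℝ}
    (hG : ContDiff ℝ ∞ G) : ContDiffOn ℝ ∞ (path b G) UU := by
  have hsnd : ContDiffOn ℝ ∞ (fun p : ℝ × C3 => p.2) UU := contDiff_snd.contDiffOn
  have h1 : ContDiffOn ℝ ∞ (fun p : ℝ × C3 => w0 p.1 • b p.2) UU :=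
    (contDiff_w0.comp contDiff_fst).contDiffOn.smul (hb.comp hsnd fun p hp => hp)
  have h2 : ContDiffOn ℝ ∞ (fun p : ℝ × C3 => cv lam0 p.2) UU :=
    isCn_lam0.smooth.comp hsnd fun p hp => hp
  have h3 : ContDiffOn ℝ ∞ (fun p : ℝ × C3 => Lam (scl (1 - w2 p.1) G) p.2) UU := by
    have h4 : ContDiffOn ℝ ∞ (fun p : ℝ × C3 => (1 - w2 p.1, p.2)) UU :=
      ((contDiff_const.sub (contDiff_w2.comp contDiff_fst)).prodMk contDiff_snd).contDiffOn
    have h5 : ContDiffOn ℝ ∞ ((fun p : ℝ × C3 => Lam (scl p.1 G) p.2) ∘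
        (fun p : ℝ × C3 => (1 - w2 p.1, p.2))) UU :=
      (smooth_Lam hG).comp h4 fun p (hp : p.2 ≠ 0) => hp
    exact h5
  have h4 : ContDiffOn ℝ ∞ (fun p : ℝ × C3 => cv (Lam (scl (1 - w2 p.1) G)) p.2) UU := by
    have h5 : ContDiffOn ℝ ∞ (covS ∘ fun p : ℝ × C3 => Lam (scl (1 - w2 p.1) G) p.2) UU :=
      covS.contDiff.comp_contDiffOn h3
    exact h5
  have h6 : ContDiffOn ℝ ∞ (fun p : ℝ × C3 => 1 - w0 p.1) UU :=
    (contDiff_const.sub (contDiff_w0.comp contDiff_fst)).contDiffOn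
  have h7 : ContDiffOn ℝ ∞ (fun p : ℝ × C3 => (1 - w0 p.1) •
      (cv lam0 p.2 + cv (Lam (scl (1 - w2 p.1) G)) p.2)) UU := h6.smul (h2.add h4)
  exact h1.add h7

/-- the path of forms -/
def fpath (Ω : TwoForm) {G : ℝ → Fin 3 → ℝ} (hG : ContDiff ℝ ∞ G) (s : ℝ) : TwoForm :=
  w0 s • Ω + (1 - w0 s) • KG (scl (1 - w2 s) G) (contDiff_scl _ hG)

theorem fpath_at (Ω : TwoForm) {G : ℝ → Fin 3 → ℝ} (hG : ContDiff ℝ ∞ G) (s : ℝ) (z : C3)
    (v : Fin 2 → C3) : (fpath Ω hG s).1 z v = w0 s * Ω.1 z v +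
      (1 - w0 s) * (KG (scl (1 - w2 s) G) (contDiff_scl _ hG)).1 z v := by
  unfold fpath
  rw [add_at', smul_at', smul_at']

theorem om_path {b : C3 → C3 →L[ℝ] ℝ} (hb : IsCn l0 b) {G : ℝ → Fin 3 → ℝ}
    (hG : ContDiff ℝ ∞ G) {Ω : TwoForm}
    (k₀ : ∀ z v w : C3, z ≠ 0 → Ω.1 z ![v, w] = extDeriv (cov b) z ![v, w])
    (s : ℝ) (z v w : C3) (hz : z ≠ 0) :
    Om (path b G) (s, z) v w = (fpath Ω hG s).1 z ![v, w] := by
  have hd : HasFDerivAt (path b G) (fderiv ℝ (path b G) (s, z)) ((fun y : C3 => (s, y)) z) :=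
    (((contDiffOn_path hb.smooth hG).contDiffAt (isOpen_UU.mem_nhds hz)).differentiableAt
      (by simp)).hasFDerivAt
  have hd1 := hd.comp z (hasFDerivAt_prodMk_right s z)
  have hL : IsCn 0 (cv (Lam (scl (1 - w2 s) G))) := isForm_cn (isForm_Lam (contDiff_scl _ hG))
  have hd2 : HasFDerivAt (fun y => w0 s • b y +
      (1 - w0 s) • (cv lam0 y + cv (Lam (scl (1 - w2 s) G)) y))
      (w0 s • fderiv ℝ b z + (1 - w0 s) • (fderiv ℝ (cv lam0) z +
        fderiv ℝ (cv (Lam (scl (1 - w2 s) G))) z)) z :=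
    ((hb.diff hz).hasFDerivAt.const_smul (w0 s)).add
      (((isCn_lam0.diff hz).hasFDerivAt.add (hL.diff hz).hasFDerivAt).const_smul (1 - w0 s))
  have e := hd1.unique hd2
  have e1 : ∀ x y : C3, fderiv ℝ (path b G) (s, z) (0, x) y = w0 s * fderiv ℝ b z x y +
      (1 - w0 s) * (fderiv ℝ (cv lam0) z x y + fderiv ℝ (cv (Lam (scl (1 - w2 s) G))) z x y) := by
    intro x y
    exact congrArg (fun L : C3 →L[ℝ] (C3 →L[ℝ] ℝ) => L x y) e
  have e2 : fs z v w = fderiv ℝ (cv lam0) z v w - fderiv ℝ (cv lam0) z w v := by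
    rw [← dlam0 hz]
    show extDeriv lam0 z ![v, w] = _
    conv_lhs => rw [← cov_cv lam0]
    exact extDeriv_cov (isCn_lam0.diff hz).hasFDerivAt v w
  have e3 : extDeriv (Lam (scl (1 - w2 s) G)) z ![v, w] =
      fderiv ℝ (cv (Lam (scl (1 - w2 s) G))) z v w -
        fderiv ℝ (cv (Lam (scl (1 - w2 s) G))) z w v := by
    conv_lhs => rw [← cov_cv (Lam (scl (1 - w2 s) G))]
    exact extDeriv_cov (hL.diff hz).hasFDerivAt v w
  rw [fpath_at, k₀ z v w hz, KG_at _ hz, extDeriv_cov (hb.diff hz).hasFDerivAt, e2, e3]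
  unfold Om
  rw [e1, e1]
  ring

theorem isPath_path {b : C3 → C3 →L[ℝ] ℝ} (hb : IsCn l0 b) {G : ℝ → Fin 3 → ℝ}
    (hG : ContDiff ℝ ∞ G) {Ω : TwoForm}
    (k₀ : ∀ z v w : C3, z ≠ 0 → Ω.1 z ![v, w] = extDeriv (cov b) z ![v, w])
    (hp : ∀ s z e n, IsFrame z e n → 0 < pfA ((fpath Ω hG s).1 z) e n) : IsPath (path b G) := by
  have hL : ∀ s, IsCn 0 (cv (Lam (scl (1 - w2 s) G))) := fun s =>
    isForm_cn (isForm_Lam (contDiff_scl _ hG))
  refine ⟨contDiffOn_path hb.smooth hG, ?_, ⟨l0, ?_⟩, ?_, ?_, ?_⟩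
  · intro s c z v hc hz
    show w0 s * b (c • z) (c • v) + (1 - w0 s) * (cv lam0 (c • z) (c • v) +
      cv (Lam (scl (1 - w2 s) G)) (c • z) (c • v)) = w0 s * b z v + (1 - w0 s) * (cv lam0 z v +
      cv (Lam (scl (1 - w2 s) G)) z v)
    rw [hb.invariant c z v hc hz, isCn_lam0.invariant c z v hc hz, (hL s).invariant c z v hc hz]
  · intro s z c hz
    show w0 s * b z (c • z) + (1 - w0 s) * (cv lam0 z (c • z) +
      cv (Lam (scl (1 - w2 s) G)) z (c • z)) = l0 c
    rw [hb.vertical z c hz, isCn_lam0.vertical z c hz, (hL s).vertical z c hz]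
    show w0 s * l0 c + (1 - w0 s) * (l0 c + 0) = l0 c
    ring
  · intro s z hs hz
    unfold path
    simp only
    obtain ⟨a1, a2, a3⟩ := w_left hs
    obtain ⟨c1, c2, c3⟩ := w_left (le_refl (0 : ℝ))
    rw [a1, a3, c1, c3]
  · intro s z hs hz
    unfold path
    simp only
    obtain ⟨a1, a2, a3⟩ := w_right hs
    obtain ⟨c1, c2, c3⟩ := w_right (le_refl (1 : ℝ))
    rw [a1, a3, c1, c3]
  · intro s z u hz hu
    refine nondeg_of_pos (T := fpath Ω hG s) (hp s) hz fun w => ?_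
    rw [← om_path hb hG k₀ s z u w hz]
    exact hu w

theorem scl_one (G : ℝ → Fin 3 → ℝ) : scl 1 G = G := by
  funext t i
  unfold scl
  simp

theorem scl_zero (G : ℝ → Fin 3 → ℝ) : scl 0 G = Z0 := by
  funext t i
  unfold scl Z0
  simp

theorem Lam_Z0 (z : C3) : Lam Z0 z = 0 := by
  ext v
  rw [Lam_apply]
  unfold b0 b1 b2 b3 Z0
  simp

theorem KG_Z0 {z : C3} (hz : z ≠ 0) (v w : C3) : (KG Z0 contDiff_Z0).1 z ![v, w] = fs z v w := by
  rw [KG_at _ hz]
  have : Lam Z0 = 0 := by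
    funext z
    exact Lam_Z0 z
  rw [this]
  have h2 : extDeriv (0 : Form 1) z = 0 := by
    rw [extDeriv]
    have h3 : fderiv ℝ (fun _ : C3 => (0 : C3 [⋀^Fin 1]→L[ℝ] ℝ)) z = 0 := by simp
    have h4 : fderiv ℝ (0 : Form 1) z = 0 := h3
    rw [h4]
    exact map_zero (ContinuousAlternatingMap.alternatizeUncurryFinCLM ℝ C3 ℝ)
  rw [h2]
  show fs z v w + 0 = fs z v w
  ring

/-- **Diffeomorphisms which are positive on rotating contact planes are isotopic to
symplectomorphisms.** -/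
theorem isotopic_of_rotating {F : C3 → C3} (hF : IsDiffeo F) (h : RotatingMap F) :
    ∃ G, IsSymplectomorphism G ∧ Isotopic F G := by
  set Ω : TwoForm := pform F hF.lift hF.ne with hΩ
  have hΩs : IsSymplectic Ω := symplectic_pform hF
  obtain ⟨U, hU, hA⟩ := exists_curve (rotP_of (rotating_pform hF h))
  obtain ⟨μ, hμ, m1, m2, m3⟩ := exists_fun hU hA
  set G := mulG μ U with hGdef
  have hG : ContDiff ℝ ∞ G := contDiff_mulG hμ hU
  have hw : ∀ z e n, IsFrame z e n → 0 < wd (Ω.1 z) ((KG G hG).1 z) e n := wd_of_std m3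
  have hK : IsSymplectic (KG G hG) := symplectic_KG hG m2
  have hb : IsCn l0 (pc F (cv lam0)) := isCn_pc hF.lift hF.ne isCn_lam0
  have k₀ : ∀ z v w : C3, z ≠ 0 → Ω.1 z ![v, w] = extDeriv (cov (pc F (cv lam0))) z ![v, w] :=
    pform_ext hF.lift hF.ne
  have hsym : ∀ s, IsSymplectic (fpath Ω hG s) := by
    intro s
    have hsum := sum_w s
    unfold fpath
    rcases w_cases s with ⟨q1, q2, q3⟩ | ⟨q1, q2, q3⟩
    · have e1 : KG (scl (1 - w2 s) G) (contDiff_scl _ hG) = KG G hG := by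
        congr 1
        rw [q1, sub_zero, scl_one]
      rw [e1]
      have := seg_sym hΩs hK hw (t := 1 - w0 s) (by linarith) (by linarith)
      rwa [sub_sub_cancel] at this
    · rw [q1, zero_smul, zero_add, sub_zero, one_smul]
      exact symplectic_KG _ fun t h0 h1 => DD_scl (by linarith) (by linarith) hG m2 h0 h1
  have hp : ∀ s z e n, IsFrame z e n → 0 < pfA ((fpath Ω hG s).1 z) e n :=
    fun s z e n hf => frame_pos (hsym s).positive hf
  refine isotopic_of_path hF (isPath_path hb hG k₀ hp) (fpath Ω hG) (om_path hb hG k₀) hp ?_ ?_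
  · intro z v w hz
    obtain ⟨c1, c2, c3⟩ := w_left (le_refl (0 : ℝ))
    rw [fpath_at, c1, ← pform_at hF.lift hF.ne hz]
    ring
  · intro z v w hz
    obtain ⟨c1, c2, c3⟩ := w_right (le_refl (1 : ℝ))
    have e1 : KG (scl (1 - w2 1) G) (contDiff_scl _ hG) = KG Z0 contDiff_Z0 := by
      congr 1
      rw [c3, sub_self, scl_zero]
    rw [fpath_at, c1, e1, KG_Z0 hz]
    ring

end Pool.Agent.H820.RL
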